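import Pool.Agent.Helper162.Arc.Tree

set_option autoImplicit false
set_option linter.unusedSectionVars false

open Set Filter Topology

namespace Pool.Agent.Helper162.Hom

open Pool.Agent.Helper162.Arc

/-- Hereditary indecomposability: intersecting subcontinua are nested. -/
def HI (X : Type) [TopologicalSpace X] : Prop :=
  ∀ C D : Set X, IsClosed C → IsClosed D → IsPreconnected C → IsPreconnected D →
    (C ∩ D).Nonempty → C ⊆ D ∨ D ⊆ C

variable {X : Type} [TopologicalSpace X] [CompactSpace X] [T2Space X]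

/-- band -/
def Bd (φ : X → ℝ) (a b : ℝ) : Set X := {z | a ≤ φ z ∧ φ z ≤ b}

/-- component of the band through `x` -/
def Co (φ : X → ℝ) (x : X) (a b : ℝ) : Set X := connectedComponentIn (Bd φ a b) x

lemma isClosed_Bd {φ : X → ℝ} (hφ : Continuous φ) (a b : ℝ) : IsClosed (Bd φ a b) :=
  (isClosed_le continuous_const hφ).inter (isClosed_le hφ continuous_const)

lemma isClosed_Co {φ : X → ℝ} (hφ : Continuous φ) (x : X) (a b : ℝ) : IsClosed (Co φ x a b) :=
  isClosed_cc (isClosed_Bd hφ a b) x

lemma Co_sub (φ : X → ℝ) (x : X) (a b : ℝ) : Co φ x a b ⊆ Bd φ a b :=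
  connectedComponentIn_subset _ _

lemma mem_Co {φ : X → ℝ} {x : X} {a b : ℝ} (h1 : a ≤ φ x) (h2 : φ x ≤ b) : x ∈ Co φ x a b :=
  mem_connectedComponentIn ⟨h1, h2⟩

lemma Bd_neg (φ : X → ℝ) (a b : ℝ) : Bd (fun z => -φ z) (-b) (-a) = Bd φ a b := by
  ext z; simp only [Bd, mem_ofPred_eq, neg_le_neg_iff]; exact and_comm

lemma Co_neg (φ : X → ℝ) (x : X) (a b : ℝ) : Co (fun z => -φ z) x (-b) (-a) = Co φ x a b := by
  unfold Co; rw [Bd_neg]

/-- frontier of a clopen piece avoiding the level `a` -/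
lemma front {φ : X → ℝ} (hφ : Continuous φ) {a b : ℝ} {N : Set X} (hN : IsClosed N)
    (hN2 : IsClosed (Bd φ a b \ N)) (hN3 : N ⊆ Bd φ a b) (hne : ∀ z ∈ N, φ z ≠ a) :
    ∀ z ∈ frontier N, φ z = b := by
  intro z hz
  have hzN : z ∈ N := hN.frontier_subset hz
  by_contra hcon
  have h1 : a < φ z := lt_of_le_of_ne (hN3 hzN).1 (Ne.symm (hne z hzN))
  have h2 : φ z < b := lt_of_le_of_ne (hN3 hzN).2 hcon
  have hO : IsOpen ({w | a < φ w} ∩ {w | φ w < b} ∩ (Bd φ a b \ N)ᶜ) :=
    ((isOpen_lt continuous_const hφ).inter (isOpen_lt hφ continuous_const)).inter hN2.isOpen_compl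
  have hsub : ({w | a < φ w} ∩ {w | φ w < b} ∩ (Bd φ a b \ N)ᶜ) ⊆ N := by
    rintro w ⟨⟨h3, h4⟩, h5⟩
    by_contra h6
    exact h5 ⟨⟨le_of_lt h3, le_of_lt h4⟩, h6⟩
  have : z ∈ interior N := mem_interior.2 ⟨_, hsub, hO, ⟨⟨h1, h2⟩, fun h => h.2 hzN⟩⟩
  exact (mem_sdiff _ |>.1 hz).2 this

/-- the inductive statement -/
def PP (φ : X → ℝ) (x : X) (d a b : ℝ) : Prop :=
  ∃ (N : Set X) (ψ : X → ℝ) (s : ℝ → ℝ), IsClosed N ∧ IsClosed (Bd φ a b \ N) ∧ N ⊆ Bd φ a b ∧
    Co φ x a b ⊆ N ∧ (∀ z ∈ N, φ z ≠ a) ∧ Continuous ψ ∧ (∀ z, 0 ≤ ψ z) ∧ (∀ z ∈ N, ψ z = 0) ∧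
    Continuous s ∧ s 0 = b ∧ ∀ z, z ∉ N → |s (ψ z) - φ z| ≤ d

lemma step {φ : X → ℝ} (hφ : Continuous φ) {x : X} {d a b a' b' : ℝ}
    (hax : a ≤ φ x) (hxb : φ x ≤ b) (hav : ∀ z ∈ Co φ x a b, φ z ≠ a)
    (hbb : b < b') (hbd : b' ≤ b + d) (ha'b : a' ≤ b) (ha' : ∀ z ∈ Co φ x a b, a' < φ z)
    (h : PP (fun z => -φ z) x d (-b') (-a')) : PP φ x d a b := by
  classical
  obtain ⟨N', ψ', s', hN', hN'2, hN'3, hN'4, hN'5, hψ', hψ'0, hψ'N, hs', hs'0, herr⟩ := h
  rw [Bd_neg] at hN'2 hN'3
  rw [Co_neg] at hN'4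
  have hxZ : x ∈ Bd φ a b := ⟨hax, hxb⟩
  have hKsub : Co φ x a b ⊆ Co φ x a' b' := by
    apply IsPreconnected.subset_connectedComponentIn isPreconnected_connectedComponentIn
      (mem_Co hax hxb)
    intro z hz
    exact ⟨le_of_lt (ha' z hz), le_trans (Co_sub _ _ _ _ hz).2 (le_of_lt hbb)⟩
  let O : Set X := {w | a' < φ w} ∩ {w | φ w < b'} ∩ (Bd φ a' b' \ N')ᶜ
  have hO : IsOpen O :=
    ((isOpen_lt continuous_const hφ).inter (isOpen_lt hφ continuous_const)).inter hN'2.isOpen_compl
  have hOsub : O ⊆ N' := by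
    rintro w ⟨⟨h3, h4⟩, h5⟩
    by_contra h6
    exact h5 ⟨⟨le_of_lt h3, le_of_lt h4⟩, h6⟩
  have hKO : Co φ x a b ⊆ O := by
    intro z hz
    exact ⟨⟨ha' z hz, lt_of_le_of_lt (Co_sub _ _ _ _ hz).2 hbb⟩, fun h => h.2 (hN'4 (hKsub hz))⟩
  obtain ⟨N, hN, hN2, hN3, hN4, hN5⟩ := cutwire (isClosed_Bd hφ a b) (A := {x})
    (B := Oᶜ ∪ {w | φ w = a}) isClosed_singleton
    (hO.isClosed_compl.union (isClosed_eq hφ continuous_const)) (singleton_subset_iff.2 hxZ)
    (by
      rintro y rfl
      rw [Set.disjoint_left]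
      rintro z hz (h1 | h1)
      · exact h1 (hKO hz)
      · exact hav z hz h1)
  have hxN : x ∈ N := hN4 rfl
  have hNO : N ⊆ O := by
    intro z hz
    by_contra h1
    exact Set.disjoint_left.1 hN5 hz (Or.inl h1)
  have hNa : ∀ z ∈ N, φ z ≠ a := fun z hz h1 => Set.disjoint_left.1 hN5 hz (Or.inr h1)
  have hNN' : N ⊆ N' := hNO.trans hOsub
  have hKN : Co φ x a b ⊆ N := by
    have hcov : Co φ x a b ⊆ N ∪ (Bd φ a b \ N) := by
      rw [union_sdiff_cancel hN3]; exact Co_sub _ _ _ _
    rcases pc_cases isPreconnected_connectedComponentIn hN hN2 hcov disjoint_sdiff_right with h | h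
    · exact h
    · exact absurd hxN (h (mem_Co hax hxb)).2
  have hfr : ∀ z ∈ frontier N, φ z = b := front hφ hN hN2 hN3 hNa
  have hfr' : ∀ z ∈ frontier N', φ z = a' := by
    intro z hz
    have := front (φ := fun z => -φ z) hφ.neg (a := -b') (b := -a') hN' (by rw [Bd_neg]; exact hN'2)
      (by rw [Bd_neg]; exact hN'3) hN'5 z hz
    simpa using this
  let hh : X → ℝ := fun z => if z ∈ N' then max 0 (b - φ z) else b - a'
  have hhc : Continuous hh := by
    apply Continuous.if
    · intro z hz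
      have : φ z = a' := hfr' z hz
      rw [this, max_eq_right (by linarith)]
    · exact continuous_const.max (continuous_const.sub hφ)
    · exact continuous_const
  let g : X → ℝ := fun z => if z ∈ N then 0 else hh z
  have hgc : Continuous g := by
    apply Continuous.if
    · intro z hz
      have h1 : φ z = b := hfr z hz
      have h2 : z ∈ N' := hNN' (hN.frontier_subset hz)
      simp only [hh, if_pos h2, h1, sub_self, max_self]
    · exact continuous_const
    · exact hhc
  have hg0 : ∀ z, 0 ≤ g z := by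
    intro z
    simp only [g, hh]
    split_ifs
    · exact le_rfl
    · exact le_max_left _ _
    · linarith
  let s : ℝ → ℝ := fun t => if t ≤ b - a' then b - t else -s' (t - (b - a'))
  have hsc : Continuous s := by
    apply Continuous.if_le
    · exact continuous_const.sub continuous_id
    · exact (hs'.comp (continuous_id.sub continuous_const)).neg
    · exact continuous_id
    · exact continuous_const
    · intro t ht
      have : t = b - a' := ht
      rw [this, sub_self, hs'0]; ring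
  refine ⟨N, fun z => g z + ψ' z, s, hN, hN2, hN3, hKN, hNa, hgc.add hψ',
    fun z => add_nonneg (hg0 z) (hψ'0 z), ?_, hsc, ?_, ?_⟩
  · intro z hz
    simp only [g, if_pos hz, hψ'N z (hNN' hz), add_zero]
  · simp only [s]
    rw [if_pos (by linarith)]; ring
  · intro z hz
    by_cases hzN' : z ∈ N'
    · have h1 : g z + ψ' z = max 0 (b - φ z) := by
        simp only [g, hh, if_neg hz, if_pos hzN', hψ'N z hzN', add_zero]
      have h2 : a' ≤ φ z := (hN'3 hzN').1
      have h3 : φ z ≤ b' := (hN'3 hzN').2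
      have h4 : max 0 (b - φ z) ≤ b - a' := max_le (by linarith) (by linarith)
      show |s (g z + ψ' z) - φ z| ≤ d
      rw [h1]
      simp only [s, if_pos h4]
      rcases le_total (φ z) b with h5 | h5
      · rw [max_eq_right (by linarith)]
        simp only [sub_sub_cancel, sub_self, abs_zero]; linarith
      · rw [max_eq_left (by linarith)]
        rw [abs_le]; constructor <;> linarith
    · have h1 : g z + ψ' z = (b - a') + ψ' z := by
        simp only [g, hh, if_neg hz, if_neg hzN']
      have h2 : s ((b - a') + ψ' z) = -s' (ψ' z) := by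
        simp only [s]
        split_ifs with h3
        · have h4 : ψ' z = 0 := le_antisymm (by linarith) (hψ'0 z)
          rw [h4, hs'0]; ring
        · rw [add_sub_cancel_left]
      show |s (g z + ψ' z) - φ z| ≤ d
      rw [h1, h2]
      have h3 := herr z hzN'
      rw [← abs_neg]
      have h4 : -(-s' (ψ' z) - φ z) = s' (ψ' z) - -φ z := by ring
      rw [h4]; exact h3

/-- a valid corner -/
def Valid (φ : X → ℝ) (x : X) (d a b : ℝ) : Prop :=
  a < φ x ∧ φ x ≤ b ∧ (∀ z ∈ Co φ x a b, φ z ≠ a) ∧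
    ∃ b'', b ≤ b'' ∧ b'' < b + d ∧ ∃ z ∈ Co φ x a b'', φ z = a

variable [ConnectedSpace X]

/-- boundary bumping -/
lemma bump {φ : X → ℝ} (hφ : Continuous φ) {x : X} {a b : ℝ} (ha : ∀ z, a < φ z) (hxb : φ x ≤ b)
    (hz : ∃ z, b ≤ φ z) : ∃ z ∈ Co φ x a b, φ z = b := by
  by_contra hcon
  push Not at hcon
  obtain ⟨D, hD, hD2, hD3, hD4, hD5⟩ := cutwire (isClosed_Bd hφ a b) (A := {x})
    (B := {w | φ w = b}) isClosed_singleton (isClosed_eq hφ continuous_const)
    (singleton_subset_iff.2 ⟨le_of_lt (ha x), hxb⟩)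
    (by
      rintro y rfl
      rw [Set.disjoint_left]
      intro z hz h1
      exact hcon z hz h1)
  have hop : IsOpen D := by
    have : Dᶜ = (Bd φ a b \ D) ∪ {w | b ≤ φ w} := by
      ext w
      simp only [mem_compl_iff, mem_union, Set.mem_sdiff, mem_ofPred_eq]
      constructor
      · intro h
        by_cases h1 : b ≤ φ w
        · exact Or.inr h1
        · exact Or.inl ⟨⟨le_of_lt (ha w), le_of_lt (not_le.1 h1)⟩, h⟩
      · rintro (⟨_, h⟩ | h)
        · exact h
        · intro h2
          exact Set.disjoint_left.1 hD5 h2 (le_antisymm (hD3 h2).2 h)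
    rw [← isClosed_compl_iff, this]
    exact hD2.union (isClosed_le continuous_const hφ)
  have huniv : D = univ := IsClopen.eq_univ ⟨hD, hop⟩ ⟨x, hD4 rfl⟩
  obtain ⟨z, hz⟩ := hz
  have h2 : z ∈ D := by rw [huniv]; trivial
  exact Set.disjoint_left.1 hD5 h2 (le_antisymm (hD3 h2).2 hz)

lemma recu (hHI : HI X) (x : X) {d R : ℝ} (hd : 0 < d) : ∀ (n : ℕ) (φ : X → ℝ), Continuous φ →
    (∀ z w, φ z - φ w ≤ R) → ∀ a b : ℝ, R < (b - a) + n * (d / 2) → Valid φ x d a b →
    PP φ x d a b := by
  intro n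
  induction n with
  | zero =>
    intro φ hφ hR a b hab hV
    obtain ⟨hax, hxb, hav, b'', hb1, hb2, w, hw, hwa⟩ := hV
    obtain ⟨m, -, hm⟩ := isCompact_univ.exists_isMinOn (univ_nonempty (α := X)) hφ.continuousOn
    have hm' : ∀ z, φ m ≤ φ z := fun z => hm (mem_univ z)
    have hlt : ∀ z, φ z < b + d := by
      intro z
      by_contra hcon
      have h1 := hR z w
      rw [hwa] at h1
      simp only [Nat.cast_zero, zero_mul, add_zero] at hab
      linarith [not_lt.1 hcon]
    apply step hφ (le_of_lt hax) hxb hav (b' := b + d) (a' := φ m - 1) (by linarith) le_rfl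
      (by linarith [hm' x]) (fun z _ => by linarith [hm' z])
    refine ⟨univ, fun _ => 0, fun _ => -(φ m - 1), isClosed_univ, ?_, ?_, subset_univ _, ?_,
      continuous_const, fun _ => le_rfl, fun _ _ => rfl, continuous_const, rfl, ?_⟩
    · rw [Set.sdiff_univ]; exact isClosed_empty
    · intro z _
      exact ⟨by linarith [hlt z], by linarith [hm' z]⟩
    · intro z _ h1
      have := hlt z
      have h2 : -φ z = -(b + d) := h1
      linarith
    · intro z hz
      exact absurd (mem_univ z) hz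
  | succ n ih =>
    intro φ hφ hR a b hab hV
    obtain ⟨hax, hxb, hav, b'', hb1, hb2, w, hw, hwa⟩ := hV
    obtain ⟨m, -, hm⟩ := isCompact_univ.exists_isMinOn (univ_nonempty (α := X)) hφ.continuousOn
    have hm' : ∀ z, φ m ≤ φ z := fun z => hm (mem_univ z)
    by_cases hlt : ∀ z, φ z < b + d
    · apply step hφ (le_of_lt hax) hxb hav (b' := b + d) (a' := φ m - 1) (by linarith) le_rfl
        (by linarith [hm' x]) (fun z _ => by linarith [hm' z])
      refine ⟨univ, fun _ => 0, fun _ => -(φ m - 1), isClosed_univ, ?_, ?_, subset_univ _, ?_,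
        continuous_const, fun _ => le_rfl, fun _ _ => rfl, continuous_const, rfl, ?_⟩
      · rw [Set.sdiff_univ]; exact isClosed_empty
      · intro z _
        exact ⟨by linarith [hlt z], by linarith [hm' z]⟩
      · intro z _ h1
        have := hlt z
        have h2 : -φ z = -(b + d) := h1
        linarith
      · intro z hz
        exact absurd (mem_univ z) hz
    · push Not at hlt
      obtain ⟨z₀, hz₀⟩ := hlt
      let S : Set ℝ := {a' | a' ≤ φ x ∧ ∃ z ∈ Co φ x a' (b + d), φ z = b + d}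
      have hSne : S.Nonempty := ⟨φ m - 1, by linarith [hm' x],
        bump hφ (fun z => by linarith [hm' z]) (by linarith) ⟨z₀, hz₀⟩⟩
      have hSa : ∀ a' ∈ S, a' ≤ a := by
        rintro a' ⟨h1, z, hz, hzb⟩
        by_contra hcon
        have hlt' : a < a' := not_le.1 hcon
        rcases hHI (Co φ x a' (b + d)) (Co φ x a b'') (isClosed_Co hφ _ _ _) (isClosed_Co hφ _ _ _)
          isPreconnected_connectedComponentIn isPreconnected_connectedComponentIn
          ⟨x, mem_Co h1 (by linarith), mem_Co (le_of_lt hax) (by linarith)⟩ with h | h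
        · have := (Co_sub _ _ _ _ (h hz)).2
          linarith
        · have := (Co_sub _ _ _ _ (h hw)).1
          linarith
      have hSb : BddAbove S := ⟨a, hSa⟩
      have hA : sSup S ≤ a := csSup_le hSne hSa
      obtain ⟨k, hkK, hk⟩ := (isClosed_Co hφ x a b).isCompact.exists_isMinOn
        ⟨x, mem_Co (le_of_lt hax) hxb⟩ hφ.continuousOn
      have hk' : ∀ z ∈ Co φ x a b, φ k ≤ φ z := fun z hz => hk hz
      have hak : a < φ k := lt_of_le_of_ne (Co_sub _ _ _ _ hkK).1 (Ne.symm (hav k hkK))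
      have hkx : φ k ≤ φ x := hk' x (mem_Co (le_of_lt hax) hxb)
      obtain ⟨a', h1, h2, h3⟩ : ∃ a', sSup S < a' ∧ a' < φ k ∧ a' ≤ sSup S + d / 2 := by
        refine ⟨min ((sSup S + φ k) / 2) (sSup S + d / 2), lt_min (by linarith) (by linarith),
          lt_of_le_of_lt (min_le_left _ _) (by linarith), min_le_right _ _⟩
      obtain ⟨a'', ha''S, ha''⟩ := exists_lt_of_lt_csSup hSne
        (show sSup S - d / 2 < sSup S by linarith)
      have ha''2 : a'' ≤ sSup S := le_csSup hSb ha''S
      apply step hφ (le_of_lt hax) hxb hav (b' := b + d) (a' := a') (by linarith) le_rfl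
        (by linarith) (fun z hz => lt_of_lt_of_le h2 (hk' z hz))
      apply ih (fun z => -φ z) hφ.neg (fun z w => by linarith [hR w z])
      · push_cast at hab ⊢
        nlinarith
      · refine ⟨by linarith, by linarith, ?_, -a'', by linarith, by linarith, ?_⟩
        · rw [Co_neg]
          intro z hz h4
          have h5 : φ z = b + d := neg_injective h4
          have : a' ∈ S := ⟨by linarith, z, hz, h5⟩
          exact absurd (le_csSup hSb this) (not_le.2 h1)
        · rw [Co_neg]
          obtain ⟨_, z, hz, hzb⟩ := ha''S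
          exact ⟨z, hz, by show -φ z = -(b + d); rw [hzb]⟩

/-- the start -/
lemma start (hHI : HI X) {φ : X → ℝ} (hφ : Continuous φ) (x : X) {d : ℝ} (hd : 0 < d)
    (hav : ∀ z ∈ Co φ x (φ x - d) (φ x), φ z ≠ φ x - d) :
    ∃ (ψ : X → ℝ) (s : ℝ → ℝ), Continuous ψ ∧ Continuous s ∧ ψ x = 0 ∧ (∀ z, 0 ≤ ψ z) ∧
      ∀ z, |s (ψ z) - φ z| ≤ d := by
  classical
  obtain ⟨m, -, hm⟩ := isCompact_univ.exists_isMinOn (univ_nonempty (α := X)) hφ.continuousOn
  have hm' : ∀ z, φ m ≤ φ z := fun z => hm (mem_univ z)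
  obtain ⟨M, -, hM⟩ := isCompact_univ.exists_isMaxOn (univ_nonempty (α := X)) hφ.continuousOn
  have hM' : ∀ z, φ z ≤ φ M := fun z => hM (mem_univ z)
  have key : ∃ b, φ x ≤ b ∧ PP φ x d (φ x - d) b := by
    by_cases hall : ∀ z, φ x - d < φ z
    · refine ⟨φ M, hM' x, univ, fun _ => 0, fun _ => φ M, isClosed_univ, ?_, ?_, subset_univ _, ?_,
        continuous_const, fun _ => le_rfl, fun _ _ => rfl, continuous_const, rfl, ?_⟩
      · rw [Set.sdiff_univ]; exact isClosed_empty
      · intro z _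
        exact ⟨le_of_lt (hall z), hM' z⟩
      · intro z _
        exact (hall z).ne'
      · intro z hz
        exact absurd (mem_univ z) hz
    · push Not at hall
      obtain ⟨z₁, hz₁⟩ := hall
      let T : Set ℝ := {b | φ x ≤ b ∧ ∃ z ∈ Co φ x (φ x - d) b, φ z = φ x - d}
      have hTne : T.Nonempty := by
        refine ⟨φ M + 1, by linarith [hM' x], ?_⟩
        have := bump (φ := fun z => -φ z) hφ.neg (x := x) (a := -(φ M + 1)) (b := -(φ x - d))
          (fun z => by linarith [hM' z]) (by linarith) ⟨z₁, by linarith⟩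
        rw [Co_neg] at this
        obtain ⟨z, hz, hz2⟩ := this
        exact ⟨z, hz, neg_injective hz2⟩
      have hTb : BddBelow T := ⟨φ x, fun b hb => hb.1⟩
      have hB : φ x ≤ sInf T := le_csInf hTne fun b hb => hb.1
      have hvalid : ∃ b, Valid φ x d (φ x - d) b := by
        rcases hB.lt_or_eq with h | h
        · obtain ⟨b, hb1, hb2, hb3⟩ : ∃ b, φ x ≤ b ∧ b < sInf T ∧ sInf T - d < b :=
            ⟨max (φ x) (sInf T - d / 2), le_max_left _ _, max_lt h (by linarith),
              lt_of_lt_of_le (by linarith) (le_max_right _ _)⟩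
          obtain ⟨b'', hb''T, hb''⟩ := exists_lt_of_csInf_lt hTne
            (show sInf T < b + d by linarith)
          refine ⟨b, by linarith, hb1, ?_, b'', ?_, hb'', hb''T.2⟩
          · intro z hz hz2
            exact absurd (csInf_le hTb ⟨hb1, z, hz, hz2⟩) (not_le.2 hb2)
          · exact le_trans (le_of_lt hb2) (csInf_le hTb hb''T)
        · obtain ⟨b'', hb''T, hb''⟩ := exists_lt_of_csInf_lt hTne
            (show sInf T < φ x + d by linarith)
          exact ⟨φ x, by linarith, le_rfl, hav, b'', hb''T.1, hb'', hb''T.2⟩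
      obtain ⟨b, hb⟩ := hvalid
      refine ⟨b, hb.2.1, ?_⟩
      obtain ⟨n, hn⟩ := exists_nat_gt ((φ M - φ m) / (d / 2))
      apply recu hHI x hd n φ hφ (R := φ M - φ m) (fun z w => by linarith [hM' z, hm' w]) _ _ _ hb
      have h1 : φ M - φ m < n * (d / 2) := by
        rwa [div_lt_iff₀ (by linarith)] at hn
      have h2 : φ x ≤ b := hb.2.1
      linarith
  obtain ⟨b, hxb, N', ψ', s', hN', hN'2, hN'3, hN'4, hN'5, hψ', hψ'0, hψ'N, hs', hs'0, herr⟩ := key
  have hxN' : x ∈ N' := hN'4 (mem_Co (by linarith) hxb)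
  have hfr : ∀ z ∈ frontier N', φ z = b := front hφ hN' hN'2 hN'3 hN'5
  let g : X → ℝ := fun z => if z ∈ N' then max 0 (φ z - φ x) else b - φ x
  have hgc : Continuous g := by
    apply Continuous.if
    · intro z hz
      have : φ z = b := hfr z hz
      rw [this, max_eq_right (by linarith)]
    · exact continuous_const.max (hφ.sub continuous_const)
    · exact continuous_const
  have hg0 : ∀ z, 0 ≤ g z := by
    intro z
    simp only [g]
    split_ifs
    · exact le_max_left _ _
    · linarith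
  let s : ℝ → ℝ := fun t => if t ≤ b - φ x then φ x + t else s' (t - (b - φ x))
  have hsc : Continuous s := by
    apply Continuous.if_le
    · exact continuous_const.add continuous_id
    · exact hs'.comp (continuous_id.sub continuous_const)
    · exact continuous_id
    · exact continuous_const
    · intro t ht
      have : t = b - φ x := ht
      rw [this, sub_self, hs'0]; ring
  refine ⟨fun z => g z + ψ' z, s, hgc.add hψ', hsc, ?_, fun z => add_nonneg (hg0 z) (hψ'0 z), ?_⟩
  · simp only [g, if_pos hxN', sub_self, max_self, hψ'N x hxN', add_zero]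
  · intro z
    by_cases hzN' : z ∈ N'
    · have h1 : g z + ψ' z = max 0 (φ z - φ x) := by
        simp only [g, if_pos hzN', hψ'N z hzN', add_zero]
      have h2 : φ x - d ≤ φ z := (hN'3 hzN').1
      have h3 : φ z ≤ b := (hN'3 hzN').2
      have h4 : max 0 (φ z - φ x) ≤ b - φ x := max_le (by linarith) (by linarith)
      show |s (g z + ψ' z) - φ z| ≤ d
      rw [h1]
      simp only [s, if_pos h4]
      rcases le_total (φ z) (φ x) with h5 | h5
      · rw [max_eq_left (by linarith)]
        rw [abs_le]; constructor <;> linarith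
      · rw [max_eq_right (by linarith)]
        rw [abs_le]; constructor <;> linarith
    · have h1 : g z + ψ' z = (b - φ x) + ψ' z := by
        simp only [g, if_neg hzN']
      have h2 : s ((b - φ x) + ψ' z) = s' (ψ' z) := by
        simp only [s]
        split_ifs with h3
        · have h4 : ψ' z = 0 := le_antisymm (by linarith) (hψ'0 z)
          rw [h4, hs'0]; ring
        · rw [add_sub_cancel_left]
      show |s (g z + ψ' z) - φ z| ≤ d
      rw [h1, h2]
      exact herr z hzN'

/-- **(E)** every point of a hereditarily indecomposable continuum is an end point. -/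
theorem endpt (hHI : HI X) {φ : X → ℝ} (hφ : Continuous φ) (x : X) {d : ℝ} (hd : 0 < d) :
    ∃ (ψ : X → ℝ) (s : ℝ → ℝ), Continuous ψ ∧ Continuous s ∧ ψ x = 0 ∧ (∀ z, 0 ≤ ψ z) ∧
      ∀ z, |s (ψ z) - φ z| ≤ d := by
  by_cases hav : ∀ z ∈ Co φ x (φ x - d) (φ x), φ z ≠ φ x - d
  · exact start hHI hφ x hd hav
  · push Not at hav
    obtain ⟨z, hz, hz2⟩ := hav
    have h2 : ∀ w ∈ Co (fun z => -φ z) x (-φ x - d) (-φ x), -φ w ≠ -φ x - d := by
      have h3 : Co (fun z => -φ z) x (-φ x - d) (-φ x) = Co φ x (φ x) (φ x + d) := by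
        rw [← Co_neg φ x (φ x) (φ x + d)]
        have : -φ x - d = -(φ x + d) := by ring
        rw [this]
      rw [h3]
      intro w hw hw2
      have hw3 : φ w = φ x + d := by linarith
      rcases hHI (Co φ x (φ x - d) (φ x)) (Co φ x (φ x) (φ x + d)) (isClosed_Co hφ _ _ _)
        (isClosed_Co hφ _ _ _) isPreconnected_connectedComponentIn
        isPreconnected_connectedComponentIn
        ⟨x, mem_Co (by linarith) le_rfl, mem_Co le_rfl (by linarith)⟩ with h | h
      · have := (Co_sub _ _ _ _ (h hz)).1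
        linarith
      · have := (Co_sub _ _ _ _ (h hw)).2
        linarith
    obtain ⟨ψ, s, h4, h5, h6, h7, h8⟩ := start hHI (φ := fun z => -φ z) hφ.neg x hd h2
    refine ⟨ψ, fun t => -s t, h4, h5.neg, h6, h7, fun z => ?_⟩
    have h9 := h8 z
    rw [← abs_neg]
    have h10 : -(-s (ψ z) - φ z) = s (ψ z) - -φ z := by ring
    rw [h10]; exact h9

end Pool.Agent.Helper162.Hom
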