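import Pool.Agent.Helper162.Arc.PA
import Pool.Agent.Helper162.Hom.E

set_option autoImplicit false
set_option linter.unusedSectionVars false

open Set Filter Topology unitInterval

namespace Pool.Agent.Helper162.Hom

open Pool.Agent.Helper162.Arc

/-- The pseudo-arc: intersecting subcontinua are nested. -/
theorem hi_pa : HI PA := by
  intro C D hC hD hCc hDc hne
  by_contra hcon
  push Not at hcon
  obtain ⟨h1, h2⟩ := hcon
  have hCn : C.Nonempty := hne.mono inter_subset_left
  have hDn : D.Nonempty := hne.mono inter_subset_right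
  have hU : IsContinuum (C ∪ D) :=
    ⟨(hC.union hD).isCompact, ⟨hCn.mono subset_union_left, by
      obtain ⟨z, hz1, hz2⟩ := hne
      exact hCc.union z hz1 hz2 hDc⟩⟩
  apply pa_hi hU
  refine ⟨C, D, ⟨hC.isCompact, hCn, hCc⟩, ⟨hD.isCompact, hDn, hDc⟩, subset_union_left,
    subset_union_right, ?_, ?_, rfl⟩
  · intro h
    exact h2 (by rw [h]; exact subset_union_right)
  · intro h
    exact h1 (by rw [h]; exact subset_union_left)

/-- (E) with `ψ` onto `[0,1]`. -/
theorem endpt_range {X : Type} [TopologicalSpace X] [CompactSpace X] [T2Space X] [ConnectedSpace X]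
    (hHI : HI X) {φ : X → ℝ} (hφ : Continuous φ) (x : X) {d : ℝ} (hd : 0 < d)
    (hne : ∃ z w, 2 * d < φ z - φ w) :
    ∃ (ψ : X → ℝ) (s : ℝ → ℝ), Continuous ψ ∧ Continuous s ∧ ψ x = 0 ∧ range ψ = Icc 0 1 ∧
      ∀ z, |s (ψ z) - φ z| ≤ d := by
  obtain ⟨ψ, s, h1, h2, h3, h4, h5⟩ := endpt hHI hφ x hd
  obtain ⟨M, -, hM⟩ := isCompact_univ.exists_isMaxOn (univ_nonempty (α := X)) h1.continuousOn
  have hM' : ∀ z, ψ z ≤ ψ M := fun z => hM (mem_univ z)
  have hpos : 0 < ψ M := by
    rcases (h4 M).lt_or_eq with h | h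
    · exact h
    · exfalso
      have h0 : ∀ z, ψ z = 0 := fun z => le_antisymm (by rw [h]; exact hM' z) (h4 z)
      obtain ⟨z, w, hzw⟩ := hne
      have ha := abs_le.1 (h5 z)
      have hb := abs_le.1 (h5 w)
      rw [h0 z] at ha
      rw [h0 w] at hb
      linarith [ha.1, ha.2, hb.1, hb.2]
  refine ⟨fun z => ψ z / ψ M, fun t => s (t * ψ M), h1.div_const _, h2.comp (continuous_id.mul continuous_const),
    by simp [h3], ?_, fun z => ?_⟩
  · apply Subset.antisymm
    · rintro _ ⟨z, rfl⟩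
      exact ⟨div_nonneg (h4 z) hpos.le, (div_le_one hpos).2 (hM' z)⟩
    · have hc : IsPreconnected (range fun z => ψ z / ψ M) := isPreconnected_range (h1.div_const _)
      have h0 : (0 : ℝ) ∈ range fun z => ψ z / ψ M := ⟨x, by simp [h3]⟩
      have h1' : (1 : ℝ) ∈ range fun z => ψ z / ψ M := ⟨M, div_self hpos.ne'⟩
      exact hc.Icc_subset h0 h1'
  · show |s (ψ z / ψ M * ψ M) - φ z| ≤ d
    rw [div_mul_cancel₀ _ hpos.ne']
    exact h5 z

end Pool.Agent.Helper162.Hom
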